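import Pool.Agent.U524.CKX.Fwd
import Pool.Agent.T2H96.DM.BP

set_option autoImplicit false

open Set Filter Topology

namespace Pool.Agent.U524.CKX

/-- The Bishop-Phelps-Bollobás theorem for complex spaces. -/
theorem bpbC (X : Type) [NormedAddCommGroup X] [NormedSpace ℂ X] [CompleteSpace X]
    (f : X →L[ℂ] ℂ) (x : X) (ρ : ℝ) (hf : ‖f‖ = 1) (hx : ‖x‖ ≤ 1) (hρ : 0 < ρ) (hρ1 : ρ < 1)
    (hfx : 1 - ρ ^ 2 ≤ (f x).re) :
    ∃ (y : X) (g : X →L[ℂ] ℂ), ‖y‖ = 1 ∧ ‖g‖ = 1 ∧ g y = 1 ∧ ‖y - x‖ ≤ ρ ∧ ‖g - f‖ ≤ 2 * ρ := by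
  -- the real part
  set fr : X →L[ℝ] ℝ := Complex.reCLM.comp (f.restrictScalars ℝ) with hfr
  have hfrv : ∀ z, fr z = (f z).re := fun z => rfl
  have hrot : ∀ (F : X →L[ℂ] ℂ) (c : ℝ), (∀ z, (F z).re ≤ c * ‖z‖) → 0 ≤ c → ‖F‖ ≤ c := by
    intro F c h hc
    apply ContinuousLinearMap.opNorm_le_bound _ hc
    intro z
    by_cases h0 : F z = 0
    · rw [h0, norm_zero]; positivity
    set w : ℂ := (starRingEnd ℂ) (F z) / ‖F z‖ with hw
    have hwn : ‖w‖ = 1 := by
      rw [hw, norm_div, RCLike.norm_conj, Complex.norm_real, norm_norm,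
        div_self (norm_ne_zero_iff.mpr h0)]
    have h1 := h (w • z)
    rw [map_smul, norm_smul, hwn, one_mul, smul_eq_mul] at h1
    have h2 : w * F z = ((‖F z‖ : ℝ) : ℂ) := by
      rw [hw, div_mul_eq_mul_div, mul_comm, Complex.mul_conj, Complex.normSq_eq_norm_sq]
      have : ((‖F z‖ : ℝ) : ℂ) ≠ 0 := by exact_mod_cast norm_ne_zero_iff.mpr h0
      field_simp
      push_cast; ring
    rw [h2, Complex.ofReal_re] at h1
    exact h1
  have hfr1 : ‖fr‖ = 1 := by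
    apply le_antisymm
    · apply ContinuousLinearMap.opNorm_le_bound _ zero_le_one
      intro z
      rw [hfrv, one_mul]
      calc ‖(f z).re‖ = |(f z).re| := rfl
        _ ≤ ‖f z‖ := Complex.abs_re_le_norm _
        _ ≤ ‖f‖ * ‖z‖ := f.le_opNorm z
        _ = ‖z‖ := by rw [hf, one_mul]
    · rw [← hf]
      apply hrot f _ _ (norm_nonneg _)
      intro z
      rw [← hfrv]
      exact (le_abs_self _).trans (fr.le_opNorm z)
  obtain ⟨y, g, hy, hg, hgy, hyx, hgf⟩ := Pool.T2H96.DM.BP X fr x ρ hfr1 hx hρ hρ1 hfx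
  -- the complex functional with real part `g`
  set G : X →L[ℂ] ℂ := StrongDual.extendRCLike (𝕜 := ℂ) g with hG
  have hGre : ∀ z, (G z).re = g z := by
    intro z
    rw [hG]
    have := StrongDual.extendRCLike_apply (𝕜 := ℂ) g z
    rw [this]
    simp
  have hG1 : ‖G‖ ≤ 1 := by
    apply hrot G 1 _ zero_le_one
    intro z
    rw [hGre, ← hg]
    exact (le_abs_self _).trans (g.le_opNorm z)
  have hGy : G y = 1 := by
    have h1 : (G y).re = 1 := by rw [hGre, hgy]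
    have h2 : ‖G y‖ ≤ 1 := by
      refine (G.le_opNorm y).trans ?_
      rw [hy, mul_one]; exact hG1
    have h3 : ‖G y‖ ^ 2 ≤ 1 := pow_le_one₀ (norm_nonneg _) h2
    rw [← Complex.normSq_eq_norm_sq, Complex.normSq_apply, h1] at h3
    apply Complex.ext
    · exact h1
    · rw [Complex.one_im]; nlinarith
  refine ⟨y, G, hy, ?_, hGy, hyx, ?_⟩
  · apply le_antisymm hG1
    have := G.le_opNorm y
    rwa [hGy, hy, mul_one, norm_one] at this
  · apply hrot (G - f) _ _ (by positivity)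
    intro z
    rw [sub_apply, Complex.sub_re, hGre, ← hfrv]
    have h1 := (g - fr).le_opNorm z
    rw [sub_apply] at h1
    have h2 : g z - fr z ≤ ‖g z - fr z‖ := le_abs_self _
    calc g z - fr z ≤ ‖g - fr‖ * ‖z‖ := h2.trans h1
      _ ≤ 2 * ρ * ‖z‖ := by gcongr


variable {X : Type} [NormedAddCommGroup X] [NormedSpace ℂ X]
variable {K : Type} [TopologicalSpace K] [CompactSpace K] [T2Space K]

/-- the pointwise extension of a multilinear map on `X` to `C(K, X)` -/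
theorem lift {k : ℕ} (A : ContinuousMultilinearMap ℂ (fun _ : Fin k => X) X) :
    ∃ B : ContinuousMultilinearMap ℂ (fun _ : Fin k => C(K, X)) C(K, X),
      ∀ (m : Fin k → C(K, X)) (t : K), B m t = A (fun i => m i t) := by
  classical
  let b : (Fin k → C(K, X)) → C(K, X) := fun m => ⟨fun t => A (fun i => m i t), by fun_prop⟩
  have hb : ∀ m t, b m t = A (fun i => m i t) := fun _ _ => rfl
  have hupd : ∀ (m : Fin k → C(K, X)) (i : Fin k) (x : C(K, X)) (t : K),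
      (fun j => Function.update m i x j t) = Function.update (fun j => m j t) i (x t) := by
    intro m i x t
    funext j
    by_cases h : j = i
    · subst h; simp
    · simp [Function.update_of_ne h]
  let B₀ : MultilinearMap ℂ (fun _ : Fin k => C(K, X)) C(K, X) :=
    { toFun := b
      map_update_add' := by
        intro inst m i x y
        have : inst = instDecidableEqFin k := Subsingleton.elim _ _
        subst this
        ext t
        rw [ContinuousMap.add_apply, hb, hb, hb, hupd, hupd, hupd, ContinuousMap.add_apply,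
          A.map_update_add]
      map_update_smul' := by
        intro inst m i c x
        have : inst = instDecidableEqFin k := Subsingleton.elim _ _
        subst this
        ext t
        rw [ContinuousMap.smul_apply, hb, hb, hupd, hupd, ContinuousMap.smul_apply,
          A.map_update_smul] }
  have hbd : ∀ m, ‖B₀ m‖ ≤ ‖A‖ * ∏ i, ‖m i‖ := by
    intro m
    rw [ContinuousMap.norm_le _ (by positivity)]
    intro t
    change ‖A (fun i => m i t)‖ ≤ _
    refine (A.le_opNorm _).trans ?_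
    gcongr with i _
    exact ContinuousMap.norm_coe_le_norm _ _
  exact ⟨B₀.mkContinuous ‖A‖ hbd, fun m t => rfl⟩

/-- from a functional on `C(K, X)` to a functional on `X` -/
theorem point [Nontrivial X] [Nonempty K] (g h : C(K, X)) (hg : ‖g‖ = 1) (F : C(K, X) →L[ℂ] ℂ)
    (hF : ‖F‖ = 1) (hFg : F g = 1) (ρ : ℝ) (hρ : 0 < ρ) :
    ∃ (t : K) (f : X →L[ℂ] ℂ), ‖f‖ = 1 ∧ 1 - ρ ^ 2 ≤ (f (g t)).re ∧ ‖F h‖ ≤ ‖f (h t)‖ := by
  set N : ℝ := (‖h‖ + 1) / ρ ^ 2 with hN
  have hN0 : 0 < N := by positivity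
  obtain ⟨b, hb, hbF⟩ : ∃ b : ℂ, ‖b‖ = 1 ∧ b * F h = ((‖F h‖ : ℝ) : ℂ) := by
    by_cases h0 : F h = 0
    · exact ⟨1, by simp, by simp [h0]⟩
    · refine ⟨(starRingEnd ℂ) (F h) / ‖F h‖, ?_, ?_⟩
      · rw [norm_div, RCLike.norm_conj, Complex.norm_real, norm_norm,
          div_self (norm_ne_zero_iff.mpr h0)]
      · rw [div_mul_eq_mul_div, mul_comm, Complex.mul_conj, Complex.normSq_eq_norm_sq]
        have : ((‖F h‖ : ℝ) : ℂ) ≠ 0 := by exact_mod_cast norm_ne_zero_iff.mpr h0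
        field_simp
        push_cast; ring
  set w : C(K, X) := ((N : ℝ) : ℂ) • g + b • h with hw
  obtain ⟨t, ht⟩ : ∃ t : K, ‖w‖ ≤ ‖w t‖ := by
    obtain ⟨t, ht⟩ := (isCompact_univ (X := K)).exists_isMaxOn univ_nonempty
      (f := fun t => ‖w t‖) (by fun_prop)
    refine ⟨t, ?_⟩
    rw [ContinuousMap.norm_le _ (norm_nonneg _)]
    intro s
    exact ht.2 (mem_univ s)
  obtain ⟨f, hf, hfw⟩ := supp (w t)
  have hFw : F w = ((N + ‖F h‖ : ℝ) : ℂ) := by
    rw [hw, map_add, map_smul, map_smul, hFg, smul_eq_mul, smul_eq_mul, hbF]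
    push_cast; ring
  have h1 : N + ‖F h‖ ≤ ‖w t‖ := by
    refine le_trans ?_ ht
    have := F.le_opNorm w
    rw [hF, one_mul, hFw, Complex.norm_real, Real.norm_of_nonneg (by positivity)] at this
    exact this
  have h2 : ‖w t‖ = N * (f (g t)).re + (b * f (h t)).re := by
    have h3 : f (w t) = ((N : ℝ) : ℂ) * f (g t) + b * f (h t) := by
      have : w t = ((N : ℝ) : ℂ) • g t + b • h t := rfl
      rw [this, map_add, map_smul, map_smul, smul_eq_mul, smul_eq_mul]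
    rw [hfw] at h3
    have h4 := congrArg Complex.re h3
    rw [Complex.ofReal_re, Complex.add_re, Complex.re_ofReal_mul] at h4
    exact h4
  have h3 : (f (g t)).re ≤ 1 := by
    calc (f (g t)).re ≤ ‖f (g t)‖ := Complex.re_le_norm _
      _ ≤ ‖f‖ * ‖g t‖ := f.le_opNorm _
      _ = ‖g t‖ := by rw [hf, one_mul]
      _ ≤ ‖g‖ := ContinuousMap.norm_coe_le_norm _ _
      _ = 1 := hg
  have h4 : (b * f (h t)).re ≤ ‖f (h t)‖ := by
    refine (Complex.re_le_norm _).trans ?_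
    rw [norm_mul, hb, one_mul]
  have h5 : ‖f (h t)‖ ≤ ‖h‖ := by
    calc ‖f (h t)‖ ≤ ‖f‖ * ‖h t‖ := f.le_opNorm _
      _ = ‖h t‖ := by rw [hf, one_mul]
      _ ≤ ‖h‖ := ContinuousMap.norm_coe_le_norm _ _
  have h6 := norm_nonneg (F h)
  refine ⟨t, f, hf, ?_, ?_⟩
  · have h7 : N * (1 - (f (g t)).re) ≤ ‖h‖ := by nlinarith
    have h8 : N * ρ ^ 2 = ‖h‖ + 1 := by rw [hN]; field_simp
    by_contra hcon
    push Not at hcon
    have h9 : N * ρ ^ 2 < N * (1 - (f (g t)).re) := by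
      apply mul_lt_mul_of_pos_left _ hN0
      linarith
    linarith
  · nlinarith

/-- from `C(K, X)` to `X` -/
theorem bwd [CompleteSpace X] [Nontrivial X] [Nonempty K] (k : ℕ) (c : ℝ)
    (hC : ∀ (A : ContinuousMultilinearMap ℂ (fun _ : Fin k => C(K, X)) C(K, X)) (y : C(K, X)),
      ‖y‖ ≤ 1 → ∀ ε : ℝ, 0 < ε →
        ∃ (x : C(K, X)) (f : C(K, X) →L[ℂ] ℂ), ‖x‖ = 1 ∧ ‖f‖ = 1 ∧ f x = 1 ∧
          c * ‖A (fun _ => y)‖ - ε < ‖f (A (fun _ => x))‖)
    (A : ContinuousMultilinearMap ℂ (fun _ : Fin k => X) X) (y : X) (hy : ‖y‖ ≤ 1)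
    (ε : ℝ) (hε : 0 < ε) :
    ∃ (x : X) (f : X →L[ℂ] ℂ), ‖x‖ = 1 ∧ ‖f‖ = 1 ∧ f x = 1 ∧
      c * ‖A (fun _ => y)‖ - ε < ‖f (A (fun _ => x))‖ := by
  obtain ⟨B, hB⟩ := lift (K := K) A
  obtain ⟨g, F, hg, hF, hFg, hlt⟩ := hC B (ContinuousMap.const K y)
    ((ContinuousMap.norm_le _ zero_le_one).mpr fun t => hy) (ε / 4) (by positivity)
  have hBc : ‖B (fun _ => ContinuousMap.const K y)‖ = ‖A (fun _ => y)‖ := by
    apply le_antisymm
    · rw [ContinuousMap.norm_le _ (norm_nonneg _)]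
      intro t
      rw [hB]
      rfl
    · obtain ⟨t⟩ := ‹Nonempty K›
      have := ContinuousMap.norm_coe_le_norm (B (fun _ => ContinuousMap.const K y)) t
      rw [hB] at this
      exact this
  rw [hBc] at hlt
  set D : ℝ := ‖A‖ * (k + 2) + 1 with hD
  have hD0 : 0 < D := by positivity
  set ρ : ℝ := min (1 / 2) (ε / (4 * D)) with hρ
  have hρ0 : 0 < ρ := lt_min (by norm_num) (by positivity)
  have hρ1 : ρ < 1 := lt_of_le_of_lt (min_le_left _ _) (by norm_num)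
  have hρD : D * ρ ≤ ε / 4 := by
    calc D * ρ ≤ D * (ε / (4 * D)) := by gcongr; exact min_le_right _ _
      _ = ε / 4 := by field_simp
  obtain ⟨t, f, hf, hfg, hfh⟩ := point g (B (fun _ => g)) hg F hF hFg ρ hρ0
  rw [hB] at hfh
  have hgt : ‖g t‖ ≤ 1 := (ContinuousMap.norm_coe_le_norm _ _).trans hg.le
  obtain ⟨x, f', hx, hf', hfx, hxg, hff⟩ := bpbC X f (g t) ρ hf hgt hρ0 hρ1 hfg
  refine ⟨x, f', hx, hf', hfx, ?_⟩
  have hAx : ‖A (fun _ => x)‖ ≤ ‖A‖ := by
    refine (A.le_opNorm _).trans ?_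
    simp [hx]
  have hAd : ‖A (fun _ => x) - A (fun _ => g t)‖ ≤ ‖A‖ * k * ρ := by
    have h1 := A.norm_image_sub_le (fun _ => x) (fun _ => g t)
    refine h1.trans ?_
    rw [Fintype.card_fin]
    have h2 : ‖(fun _ : Fin k => x)‖ ≤ 1 :=
      (pi_norm_le_iff_of_nonneg zero_le_one).mpr fun _ => hx.le
    have h3 : ‖(fun _ : Fin k => g t)‖ ≤ 1 :=
      (pi_norm_le_iff_of_nonneg zero_le_one).mpr fun _ => hgt
    have h4 : ‖(fun _ : Fin k => x) - (fun _ : Fin k => g t)‖ ≤ ρ :=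
      (pi_norm_le_iff_of_nonneg hρ0.le).mpr fun _ => hxg
    have h5 : max ‖(fun _ : Fin k => x)‖ ‖(fun _ : Fin k => g t)‖ ^ (k - 1) ≤ 1 :=
      pow_le_one₀ (le_max_of_le_left (norm_nonneg _)) (max_le h2 h3)
    calc ‖A‖ * k * max ‖(fun _ : Fin k => x)‖ ‖(fun _ : Fin k => g t)‖ ^ (k - 1) *
          ‖(fun _ : Fin k => x) - (fun _ : Fin k => g t)‖ ≤ ‖A‖ * k * 1 * ρ := by gcongr
      _ = ‖A‖ * k * ρ := by ring
  have h1 : ‖f (A (fun _ => g t))‖ ≤ ‖f' (A (fun _ => x))‖ + (2 * ρ * ‖A‖ + ‖A‖ * k * ρ) := by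
    have e : f (A (fun _ => g t)) = f' (A (fun _ => x)) - ((f' - f) (A (fun _ => x)) +
        f (A (fun _ => x) - A (fun _ => g t))) := by
      rw [map_sub, sub_apply]; ring
    rw [e]
    refine (norm_sub_le _ _).trans ?_
    gcongr
    refine (norm_add_le _ _).trans ?_
    gcongr
    · refine ((f' - f).le_opNorm _).trans ?_
      gcongr
    · refine (f.le_opNorm _).trans ?_
      rw [hf, one_mul]
      exact hAd
  have h2 : 2 * ρ * ‖A‖ + ‖A‖ * k * ρ ≤ D * ρ := by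
    have : 2 * ρ * ‖A‖ + ‖A‖ * k * ρ = (‖A‖ * (k + 2)) * ρ := by ring
    rw [this, hD]
    gcongr
    linarith
  linarith

end Pool.Agent.U524.CKX
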