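import Mathlib

set_option autoImplicit false

open Set Filter Topology

namespace Pool.Agent.U524.CKX

variable {X : Type} [NormedAddCommGroup X] [NormedSpace ℂ X]
variable {K : Type} [TopologicalSpace K] [CompactSpace K] [T2Space K]

omit [NormedSpace ℂ X] in
/-- a bump at `t₀` on whose support `y` is almost constant -/
theorem bump (y : C(K, X)) (t₀ : K) (η : ℝ) (hη : 0 < η) :
    ∃ u : C(K, ℝ), (∀ t, 0 ≤ u t) ∧ (∀ t, u t ≤ 1) ∧ u t₀ = 1 ∧
      ∀ t, u t * ‖y t - y t₀‖ ≤ η := by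
  have hU : IsOpen {t | ‖y t - y t₀‖ < η} := by
    apply isOpen_lt _ continuous_const
    fun_prop
  obtain ⟨u, hu0, hu1, hu2⟩ := exists_continuous_zero_one_of_isClosed (X := K)
    (s := {t | ‖y t - y t₀‖ < η}ᶜ) (t := {t₀}) hU.isClosed_compl isClosed_singleton (by
      rw [disjoint_singleton_right]
      simp [hη])
  refine ⟨u, fun t => (hu2 t).1, fun t => (hu2 t).2, hu1 rfl, fun t => ?_⟩
  by_cases ht : ‖y t - y t₀‖ < η
  · calc u t * ‖y t - y t₀‖ ≤ 1 * ‖y t - y t₀‖ := by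
          gcongr; exact (hu2 t).2
      _ ≤ η := by linarith
  · have : u t = 0 := hu0 ht
    rw [this, zero_mul]; exact hη.le

/-- norming functional -/
theorem supp [Nontrivial X] (x : X) : ∃ f : X →L[ℂ] ℂ, ‖f‖ = 1 ∧ f x = (‖x‖ : ℂ) := by
  by_cases hx : x = 0
  · obtain ⟨z, hz⟩ := exists_ne (0 : X)
    obtain ⟨f, hf, -⟩ := exists_dual_vector ℂ z (norm_ne_zero_iff.mpr hz)
    exact ⟨f, hf, by simp [hx]⟩
  · obtain ⟨f, hf, hfx⟩ := exists_dual_vector ℂ x (norm_ne_zero_iff.mpr hx)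
    exact ⟨f, hf, by simpa using hfx⟩

/-- pushing the value at `t₀` to the unit sphere, by the maximum principle -/
theorem push [Nontrivial X] {k : ℕ}
    (B : ContinuousMultilinearMap ℂ (fun _ : Fin k => C(K, X)) C(K, X))
    (y : C(K, X)) (hy : ‖y‖ ≤ 1) (t₀ : K) (η : ℝ) (hη : 0 < η) :
    ∃ y₁ : C(K, X), ‖y₁‖ ≤ 1 ∧ ‖y₁ t₀‖ = 1 ∧
      ‖B (fun _ => y) t₀‖ - η ≤ ‖B (fun _ => y₁) t₀‖ := by
  classical
  set D : ℝ := ‖B‖ * k + 1 with hD
  have hD0 : 0 < D := by positivity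
  obtain ⟨u, hu0, hu1, hut, hub⟩ := bump y t₀ (η / D) (by positivity)
  obtain ⟨e, he, hye⟩ : ∃ e : X, ‖e‖ = 1 ∧ y t₀ = ((‖y t₀‖ : ℝ) : ℂ) • e := by
    by_cases h : y t₀ = 0
    · obtain ⟨e, he⟩ := exists_norm_eq X zero_le_one
      exact ⟨e, he, by simp [h]⟩
    · refine ⟨((‖y t₀‖⁻¹ : ℝ) : ℂ) • y t₀, ?_, ?_⟩
      · rw [norm_smul, Complex.norm_real, norm_inv, norm_norm, inv_mul_cancel₀ (norm_ne_zero_iff.mpr h)]
      · rw [smul_smul, ← Complex.ofReal_mul, mul_inv_cancel₀ (norm_ne_zero_iff.mpr h),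
          Complex.ofReal_one, one_smul]
  have hyt : ‖y t₀‖ ≤ 1 := (y.norm_coe_le_norm t₀).trans hy
  -- the two fixed functions
  set a : C(K, X) := ⟨fun t => ((1 - u t : ℝ) : ℂ) • y t, by fun_prop⟩ with ha
  set b : C(K, X) := ⟨fun t => ((u t : ℝ) : ℂ) • e, by fun_prop⟩ with hb
  have hnorm : ∀ z : ℂ, ‖z‖ ≤ 1 → ‖a + z • b‖ ≤ 1 := by
    intro z hz
    rw [ContinuousMap.norm_le _ zero_le_one]
    intro t
    have h1 : (a + z • b) t = ((1 - u t : ℝ) : ℂ) • y t + z • (((u t : ℝ) : ℂ) • e) := rfl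
    rw [h1]
    have h2 : 0 ≤ 1 - u t := by linarith [hu1 t]
    calc ‖((1 - u t : ℝ) : ℂ) • y t + z • (((u t : ℝ) : ℂ) • e)‖
        ≤ (1 - u t) * ‖y t‖ + ‖z‖ * (u t * 1) := by
          refine (norm_add_le _ _).trans ?_
          rw [norm_smul, norm_smul, norm_smul, Complex.norm_real, Complex.norm_real,
            Real.norm_of_nonneg h2, Real.norm_of_nonneg (hu0 t), he]
      _ ≤ (1 - u t) * 1 + 1 * (u t * 1) := by
          gcongr
          · exact (y.norm_coe_le_norm t).trans hy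
          · exact mul_nonneg (hu0 t) zero_le_one
      _ = 1 := by ring
  have ht0 : ∀ z : ℂ, (a + z • b) t₀ = z • e := by
    intro z
    have h1 : (a + z • b) t₀ = ((1 - u t₀ : ℝ) : ℂ) • y t₀ + z • (((u t₀ : ℝ) : ℂ) • e) := rfl
    rw [h1, hut]
    simp
  set r : ℂ := ((‖y t₀‖ : ℝ) : ℂ) with hr
  have hr1 : ‖r‖ ≤ 1 := by rw [hr, Complex.norm_real, norm_norm]; exact hyt
  -- closeness
  have hclose : ‖(a + r • b) - y‖ ≤ η / D := by
    rw [ContinuousMap.norm_le _ (by positivity)]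
    intro t
    have h1 : ((a + r • b) - y) t = ((1 - u t : ℝ) : ℂ) • y t + r • (((u t : ℝ) : ℂ) • e) - y t := rfl
    have h2 : ((a + r • b) - y) t = -(((u t : ℝ) : ℂ) • (y t - y t₀)) := by
      rw [h1, smul_comm, ← hye]
      push_cast
      module
    rw [h2, norm_neg, norm_smul, Complex.norm_real, Real.norm_of_nonneg (hu0 t)]
    exact hub t
  have hBclose : ‖B (fun _ => a + r • b) - B (fun _ => y)‖ ≤ η := by
    have h1 := B.norm_image_sub_le (fun _ => a + r • b) (fun _ => y)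
    refine h1.trans ?_
    rw [Fintype.card_fin]
    have h2 : ‖(fun _ : Fin k => a + r • b)‖ ≤ 1 :=
      (pi_norm_le_iff_of_nonneg zero_le_one).mpr fun _ => hnorm r hr1
    have h3 : ‖(fun _ : Fin k => y)‖ ≤ 1 :=
      (pi_norm_le_iff_of_nonneg zero_le_one).mpr fun _ => hy
    have h4 : ‖(fun _ : Fin k => a + r • b) - (fun _ : Fin k => y)‖ ≤ η / D :=
      (pi_norm_le_iff_of_nonneg (by positivity)).mpr fun _ => hclose
    have h5 : max ‖(fun _ : Fin k => a + r • b)‖ ‖(fun _ : Fin k => y)‖ ^ (k - 1) ≤ 1 :=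
      pow_le_one₀ (le_max_of_le_left (norm_nonneg _)) (max_le h2 h3)
    calc ‖B‖ * k * max ‖(fun _ : Fin k => a + r • b)‖ ‖(fun _ : Fin k => y)‖ ^ (k - 1) *
          ‖(fun _ : Fin k => a + r • b) - (fun _ : Fin k => y)‖ ≤ ‖B‖ * k * 1 * (η / D) := by
          gcongr
      _ ≤ D * (η / D) := by
          gcongr
          rw [hD]; linarith
      _ = η := by field_simp
  obtain ⟨h, hh, hhv⟩ := supp (B (fun _ => a + r • b) t₀)
  set G : ℂ → ℂ := fun z => h (B (fun _ => a + z • b) t₀) with hG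
  have hGd : Differentiable ℂ G := by
    have h1 : Differentiable ℂ (fun z : ℂ => (fun _ : Fin k => a + z • b)) := by
      rw [differentiable_pi]; intro i; fun_prop
    have h2 : Differentiable ℂ (fun m : Fin k → C(K, X) => B m) :=
      (B.contDiff (n := 1)).differentiable (by norm_num)
    have h3 : Differentiable ℂ (fun z : ℂ => B (fun _ => a + z • b)) := h2.comp h1
    have h4 : G = fun z => (h.comp (ContinuousMap.evalCLM ℂ t₀)) (B (fun _ => a + z • b)) := rfl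
    rw [h4]
    exact (h.comp (ContinuousMap.evalCLM ℂ t₀)).differentiable.comp h3
  have hGr : ‖B (fun _ => a + r • b) t₀‖ = ‖G r‖ := by
    rw [hG]
    simp only
    rw [hhv, Complex.norm_real, norm_norm]
  obtain ⟨z, hz, hGz⟩ : ∃ z : ℂ, ‖z‖ = 1 ∧ ‖G r‖ ≤ ‖G z‖ := by
    have hb : Bornology.IsBounded (Metric.ball (0 : ℂ) 1) := Metric.isBounded_ball
    obtain ⟨z, hz, hzm⟩ := Complex.exists_mem_frontier_isMaxOn_norm (F := ℂ) (f := G) hb
      ⟨0, by simp⟩ hGd.diffContOnCl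
    rw [frontier_ball _ one_ne_zero, mem_sphere_zero_iff_norm] at hz
    refine ⟨z, hz, hzm ?_⟩
    rw [closure_ball _ one_ne_zero, mem_closedBall_zero_iff]
    exact hr1
  refine ⟨a + z • b, hnorm z hz.le, ?_, ?_⟩
  · rw [ht0, norm_smul, hz, he, one_mul]
  · have h1 : ‖G z‖ ≤ ‖B (fun _ => a + z • b) t₀‖ := by
      have := h.le_opNorm (B (fun _ => a + z • b) t₀)
      rwa [hh, one_mul] at this
    have h2 : ‖B (fun _ => y) t₀‖ ≤ ‖B (fun _ => a + r • b) t₀‖ + η := by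
      have h3 : ‖(B (fun _ => a + r • b) - B (fun _ => y)) t₀‖ ≤ η :=
        (ContinuousMap.norm_coe_le_norm _ t₀).trans hBclose
      have h4 : (B (fun _ => a + r • b) - B (fun _ => y)) t₀ =
          B (fun _ => a + r • b) t₀ - B (fun _ => y) t₀ := rfl
      rw [h4] at h3
      have h5 := norm_sub_norm_le (B (fun _ => y) t₀) (B (fun _ => a + r • b) t₀)
      rw [norm_sub_rev] at h5
      linarith
    linarith

/-- the linear map `x ↦ (1-u) φ(x) y + u x` -/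
theorem jmap (y : C(K, X)) (hy : ‖y‖ ≤ 1) (t₀ : K) (φ : X →L[ℂ] ℂ) (hφ : ‖φ‖ ≤ 1)
    (hφy : φ (y t₀) = 1) (η : ℝ) (hη : 0 < η) :
    ∃ J : X →L[ℂ] C(K, X), (∀ x, ‖J x‖ ≤ ‖x‖) ∧ (∀ x, J x t₀ = x) ∧ ‖J (y t₀) - y‖ ≤ η := by
  obtain ⟨u, hu0, hu1, hut, hub⟩ := bump y t₀ η hη
  let j : X → C(K, X) := fun x =>
    ⟨fun t => ((1 - u t : ℝ) : ℂ) • (φ x • y t) + ((u t : ℝ) : ℂ) • x, by fun_prop⟩
  have hj : ∀ x t, j x t = ((1 - u t : ℝ) : ℂ) • (φ x • y t) + ((u t : ℝ) : ℂ) • x := fun _ _ => rfl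
  let L : X →ₗ[ℂ] C(K, X) :=
    { toFun := j
      map_add' := by
        intro x z; ext t
        rw [ContinuousMap.add_apply, hj, hj, hj, map_add]
        module
      map_smul' := by
        intro c x; ext t
        rw [ContinuousMap.smul_apply, hj, hj, map_smul, RingHom.id_apply, smul_eq_mul]
        module }
  have hbd : ∀ x, ‖L x‖ ≤ 1 * ‖x‖ := by
    intro x
    rw [one_mul, ContinuousMap.norm_le _ (norm_nonneg _)]
    intro t
    change ‖j x t‖ ≤ ‖x‖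
    rw [hj]
    have h2 : 0 ≤ 1 - u t := by linarith [hu1 t]
    have h3 : ‖φ x‖ ≤ ‖x‖ := by
      refine (φ.le_opNorm x).trans ?_
      calc ‖φ‖ * ‖x‖ ≤ 1 * ‖x‖ := by gcongr
        _ = ‖x‖ := one_mul _
    have h4 : ‖y t‖ ≤ 1 := (y.norm_coe_le_norm t).trans hy
    calc ‖((1 - u t : ℝ) : ℂ) • (φ x • y t) + ((u t : ℝ) : ℂ) • x‖
        ≤ (1 - u t) * (‖φ x‖ * ‖y t‖) + u t * ‖x‖ := by
          refine (norm_add_le _ _).trans ?_
          rw [norm_smul, norm_smul, norm_smul, Complex.norm_real, Complex.norm_real,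
            Real.norm_of_nonneg h2, Real.norm_of_nonneg (hu0 t)]
      _ ≤ (1 - u t) * (‖x‖ * 1) + u t * ‖x‖ := by gcongr
      _ = ‖x‖ := by ring
  refine ⟨L.mkContinuous 1 hbd, fun x => ?_, fun x => ?_, ?_⟩
  · have := hbd x
    rwa [one_mul] at this
  · change j x t₀ = x
    rw [hj, hut]; simp
  · rw [ContinuousMap.norm_le _ hη.le]
    intro t
    change ‖j (y t₀) t - y t‖ ≤ η
    have h2 : j (y t₀) t - y t = -(((u t : ℝ) : ℂ) • (y t - y t₀)) := by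
      rw [hj, hφy]
      push_cast
      module
    rw [h2, norm_neg, norm_smul, Complex.norm_real, Real.norm_of_nonneg (hu0 t)]
    exact hub t

/-- from `X` to `C(K, X)` -/
theorem fwd [Nontrivial X] [Nonempty K] (k : ℕ) (c : ℝ)
    (hX : ∀ (A : ContinuousMultilinearMap ℂ (fun _ : Fin k => X) X) (y : X), ‖y‖ ≤ 1 →
      ∀ ε : ℝ, 0 < ε →
        ∃ (x : X) (f : X →L[ℂ] ℂ), ‖x‖ = 1 ∧ ‖f‖ = 1 ∧ f x = 1 ∧
          c * ‖A (fun _ => y)‖ - ε < ‖f (A (fun _ => x))‖)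
    (B : ContinuousMultilinearMap ℂ (fun _ : Fin k => C(K, X)) C(K, X)) (y : C(K, X))
    (hy : ‖y‖ ≤ 1) (ε : ℝ) (hε : 0 < ε) :
    ∃ (x : C(K, X)) (f : C(K, X) →L[ℂ] ℂ), ‖x‖ = 1 ∧ ‖f‖ = 1 ∧ f x = 1 ∧
      c * ‖B (fun _ => y)‖ - ε < ‖f (B (fun _ => x))‖ := by
  classical
  set C : ℝ := |c| + 1 with hC
  have hC0 : 0 < C := by positivity
  set η : ℝ := ε / (4 * C) with hη
  have hη0 : 0 < η := by positivity
  obtain ⟨t₀, ht₀⟩ : ∃ t₀ : K, ‖B (fun _ => y)‖ ≤ ‖B (fun _ => y) t₀‖ := by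
    obtain ⟨t, ht⟩ := (isCompact_univ (X := K)).exists_isMaxOn univ_nonempty
      (f := fun t => ‖B (fun _ => y) t‖) (by fun_prop)
    refine ⟨t, ?_⟩
    rw [ContinuousMap.norm_le _ (norm_nonneg _)]
    intro s
    exact ht.2 (mem_univ s)
  have ht₀' : ‖B (fun _ => y) t₀‖ ≤ ‖B (fun _ => y)‖ := ContinuousMap.norm_coe_le_norm _ _
  obtain ⟨y₁, hy₁, hy₁t, hBy₁⟩ := push B y hy t₀ η hη0
  obtain ⟨φ, hφ, hφy⟩ := supp (y₁ t₀)
  rw [hy₁t, Complex.ofReal_one] at hφy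
  set D : ℝ := ‖B‖ * k + 1 with hD
  have hD0 : 0 < D := by positivity
  obtain ⟨J, hJ1, hJ2, hJ3⟩ := jmap y₁ hy₁ t₀ φ hφ.le hφy (η / D) (by positivity)
  set A : ContinuousMultilinearMap ℂ (fun _ : Fin k => X) X :=
    (ContinuousMap.evalCLM ℂ t₀).compContinuousMultilinearMap
      (B.compContinuousLinearMap (fun _ => J)) with hA
  have hAx : ∀ x : X, A (fun _ => x) = B (fun _ => J x) t₀ := fun x => rfl
  obtain ⟨x, f, hx, hf, hfx, hlt⟩ := hX A (y₁ t₀) hy₁t.le (ε / 2) (by positivity)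
  have hJx : ‖J x‖ = 1 := by
    apply le_antisymm ((hJ1 x).trans hx.le)
    rw [← hx]
    calc ‖x‖ = ‖J x t₀‖ := by rw [hJ2]
      _ ≤ ‖J x‖ := ContinuousMap.norm_coe_le_norm _ _
  set F : C(K, X) →L[ℂ] ℂ := f.comp (ContinuousMap.evalCLM ℂ t₀) with hF
  have hFv : ∀ g : C(K, X), F g = f (g t₀) := fun g => rfl
  have hFJ : F (J x) = 1 := by rw [hFv, hJ2, hfx]
  have hFn : ‖F‖ = 1 := by
    apply le_antisymm
    · apply ContinuousLinearMap.opNorm_le_bound _ zero_le_one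
      intro g
      rw [hFv, one_mul]
      calc ‖f (g t₀)‖ ≤ ‖f‖ * ‖g t₀‖ := f.le_opNorm _
        _ = ‖g t₀‖ := by rw [hf, one_mul]
        _ ≤ ‖g‖ := ContinuousMap.norm_coe_le_norm _ _
    · have := F.le_opNorm (J x)
      rw [hFJ, hJx, mul_one, norm_one] at this
      exact this
  refine ⟨J x, F, hJx, hFn, hFJ, ?_⟩
  by_cases hc : 0 ≤ c
  swap
  · have h1 : c * ‖B (fun _ => y)‖ ≤ 0 :=
      mul_nonpos_of_nonpos_of_nonneg (le_of_lt (not_le.mp hc)) (norm_nonneg _)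
    have h2 := norm_nonneg (F (B (fun _ => J x)))
    linarith
  rw [hFv, ← hAx]
  refine lt_of_le_of_lt ?_ hlt
  -- compare `‖A (y₁ t₀)‖` with `‖B y‖`
  have hBclose : ‖B (fun _ => J (y₁ t₀)) - B (fun _ => y₁)‖ ≤ η := by
    have h1 := B.norm_image_sub_le (fun _ => J (y₁ t₀)) (fun _ => y₁)
    refine h1.trans ?_
    rw [Fintype.card_fin]
    have h2 : ‖(fun _ : Fin k => J (y₁ t₀))‖ ≤ 1 :=
      (pi_norm_le_iff_of_nonneg zero_le_one).mpr fun _ => (hJ1 _).trans hy₁t.le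
    have h3 : ‖(fun _ : Fin k => y₁)‖ ≤ 1 :=
      (pi_norm_le_iff_of_nonneg zero_le_one).mpr fun _ => hy₁
    have h4 : ‖(fun _ : Fin k => J (y₁ t₀)) - (fun _ : Fin k => y₁)‖ ≤ η / D :=
      (pi_norm_le_iff_of_nonneg (by positivity)).mpr fun _ => hJ3
    have h5 : max ‖(fun _ : Fin k => J (y₁ t₀))‖ ‖(fun _ : Fin k => y₁)‖ ^ (k - 1) ≤ 1 :=
      pow_le_one₀ (le_max_of_le_left (norm_nonneg _)) (max_le h2 h3)
    calc ‖B‖ * k * max ‖(fun _ : Fin k => J (y₁ t₀))‖ ‖(fun _ : Fin k => y₁)‖ ^ (k - 1) *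
          ‖(fun _ : Fin k => J (y₁ t₀)) - (fun _ : Fin k => y₁)‖ ≤ ‖B‖ * k * 1 * (η / D) := by
          gcongr
      _ ≤ D * (η / D) := by
          gcongr
          rw [hD]; linarith
      _ = η := by field_simp
  set a := ‖A (fun _ => y₁ t₀)‖ with ha
  set m := ‖B (fun _ => y)‖ with hm
  have hcmp : m - 2 * η ≤ a := by
    have h3 : ‖(B (fun _ => J (y₁ t₀)) - B (fun _ => y₁)) t₀‖ ≤ η :=
      (ContinuousMap.norm_coe_le_norm _ t₀).trans hBclose
    have h4 : (B (fun _ => J (y₁ t₀)) - B (fun _ => y₁)) t₀ =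
        B (fun _ => J (y₁ t₀)) t₀ - B (fun _ => y₁) t₀ := rfl
    rw [h4] at h3
    have h5 := norm_sub_norm_le (B (fun _ => y₁) t₀) (B (fun _ => J (y₁ t₀)) t₀)
    rw [norm_sub_rev] at h5
    have h6 : a = ‖B (fun _ => J (y₁ t₀)) t₀‖ := by rw [ha, hAx]
    linarith
  have h7 : c * (m - 2 * η) ≤ c * a := by gcongr
  have h8 : c * η ≤ C * η := by
    gcongr; rw [hC]; linarith [le_abs_self c]
  have h9 : C * η = ε / 4 := by rw [hη]; field_simp
  nlinarith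

end Pool.Agent.U524.CKX
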